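import Pool.Agent.D0H11.GO.Stm
import Pool.Agent.W23.UBa
import Pool.Agent.Helper923.PPS.BT

/-! # Project GO: module SEL (Selberg's weights for the density `1 / d`) -/

set_option autoImplicit false

namespace Pool.Agent.D0H87.GO

open Finset BoundingSieve Pool.Agent.Helper923.PPS

theorem sum_eq_of {G : ℕ → ℝ} {s t : Finset ℕ} (h : ∀ d ∈ s, d ∉ t → G d = 0)
    (h' : ∀ d ∈ t, d ∉ s → G d = 0) : ∑ d ∈ s, G d = ∑ d ∈ t, G d := by
  rw [← sum_subset (inter_subset_left : s ∩ t ⊆ s)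
      (fun d hd hd' => h d hd fun h2 => hd' (mem_inter.2 ⟨hd, h2⟩)),
    ← sum_subset (inter_subset_right : s ∩ t ⊆ t)
      (fun d hd hd' => h' d hd fun h2 => hd' (mem_inter.2 ⟨h2, hd⟩))]

theorem t_SEL : Pool.Agent.D0H11.GO.S_SEL := by
  refine ⟨4, by norm_num, fun z hz => ?_⟩
  set s : BoundingSieve := apSieve 0 1 0 z with hs
  have hR : (1 : ℝ) ≤ (z : ℝ) := by exact_mod_cast (by omega : 1 ≤ z)
  let lam : ℕ → ℝ := fun d => if d ∣ s.prodPrimes then selW s (z : ℝ) d else 0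
  have hz0 : ∀ d, z < d → lam d = 0 := by
    intro d hd
    show (if d ∣ s.prodPrimes then selW s (z : ℝ) d else 0) = 0
    split_ifs
    · exact selW_eq_zero s (z : ℝ) (by exact_mod_cast hd)
    · rfl
  have hmain : ∑ d ∈ Icc 1 z, ∑ d' ∈ Icc 1 z, lam d * lam d' / (Nat.lcm d d' : ℝ) =
      (selS s (z : ℝ))⁻¹ := by
    rw [← mainSum_selW s (z : ℝ) hR, mainSum_lambdaSquared_eq_sum_sum_mul]
    have h1 : ∀ G : ℕ → ℝ, (∀ d, lam d = 0 → G d = 0) →
        ∑ d ∈ Icc 1 z, G d = ∑ d ∈ Nat.divisors s.prodPrimes, G d := by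
      intro G hG
      refine sum_eq_of (fun d _ hd' => hG d ?_) (fun d hd hd' => hG d ?_)
      · exact if_neg fun h => hd' (Nat.mem_divisors.2 ⟨h, prodPrimes_ne_zero⟩)
      · have hd0 : 0 < d := Nat.pos_of_mem_divisors hd
        refine hz0 d ?_
        by_contra hcon
        exact hd' (mem_Icc.2 ⟨hd0, by omega⟩)
    rw [h1 _ (fun d hd => by simp [hd])]
    refine sum_congr rfl fun d hd => ?_
    rw [h1 _ (fun d' hd' => by simp [hd'])]
    refine sum_congr rfl fun d' hd' => ?_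
    have e1 : lam d = selW s (z : ℝ) d := if_pos (Nat.dvd_of_mem_divisors hd)
    have e2 : lam d' = selW s (z : ℝ) d' := if_pos (Nat.dvd_of_mem_divisors hd')
    have n1 : s.nu d = (d : ℝ)⁻¹ := rfl
    have n2 : s.nu d' = (d' : ℝ)⁻¹ := rfl
    have n3 : s.nu (d.gcd d') = ((d.gcd d' : ℕ) : ℝ)⁻¹ := rfl
    have hd0 : (d : ℝ) ≠ 0 := by exact_mod_cast (Nat.pos_of_mem_divisors hd).ne'
    have hd0' : (d' : ℝ) ≠ 0 := by exact_mod_cast (Nat.pos_of_mem_divisors hd').ne'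
    have hl : ((Nat.lcm d d' : ℕ) : ℝ) ≠ 0 := by
      exact_mod_cast Nat.lcm_ne_zero (Nat.pos_of_mem_divisors hd).ne'
        (Nat.pos_of_mem_divisors hd').ne'
    have hgl : ((Nat.gcd d d' : ℕ) : ℝ) * ((Nat.lcm d d' : ℕ) : ℝ) = d * d' := by
      exact_mod_cast Nat.gcd_mul_lcm d d'
    rw [e1, e2, n1, n2, n3, inv_inv]
    have h2 : (d : ℝ)⁻¹ * (d' : ℝ)⁻¹ * ((Nat.gcd d d' : ℕ) : ℝ) =
        ((Nat.lcm d d' : ℕ) : ℝ)⁻¹ := by
      field_simp
      linarith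
    rw [div_eq_mul_inv, ← h2]
    ring
  have hSpos : 0 < selS s (z : ℝ) := selS_pos s (z : ℝ) hR
  refine ⟨lam, ?_, ?_, hz0, ?_, ?_⟩
  · show (if 1 ∣ s.prodPrimes then selW s (z : ℝ) 1 else 0) = 1
    rw [if_pos (one_dvd _)]
    exact selW_one s (z : ℝ) hR
  · intro d
    show |if d ∣ s.prodPrimes then selW s (z : ℝ) d else 0| ≤ 1
    split_ifs with h
    · exact Pool.Agent.W23.UB.abs_selW_le_one s (z : ℝ) hR h
    · simp
  · rw [hmain]
    exact (inv_pos.2 hSpos).le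
  · rw [hmain]
    have h3 : Real.log ((z : ℝ) + 1) / 4 ≤ selS s (z : ℝ) := selS_ge_log (Or.inl rfl)
    have hlog : 0 < Real.log z := Real.log_pos (by exact_mod_cast (by omega : 1 < z))
    have h4 : Real.log z ≤ Real.log ((z : ℝ) + 1) := Real.log_le_log (by linarith) (by linarith)
    rw [← inv_div]
    exact inv_anti₀ (by positivity) (by linarith)

end Pool.Agent.D0H87.GO
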